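import Pool.Agent.Q259.SI.TunB

/-!
# Dirichlet's theorem for `T`-units: rational combinations (project SI of helper20)
-/

set_option autoImplicit false
set_option linter.unusedSectionVars false

namespace Pool.Agent.Q259.SI

open NumberField IsDedekindDomain Pool.Agent.Q20.RS NumberField.Units NumberField.Units.dirichletUnitTheorem

variable {M : Type} [Field M] [NumberField M] (T : Finset (HeightOneSpectrum (𝓞 M)))

/-- an element as an additive unit -/
noncomputable def ad {u : M} (hu : u ≠ 0) : Additive Mˣ := Additive.ofMul (Units.mk0 u hu)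

lemma lg_ad {u : M} (hu : u ≠ 0) (w : Pl M) : lg w (ad hu) = logv u w := rfl

lemma logv_unit_prime (e : (𝓞 M)ˣ) (w : HeightOneSpectrum (𝓞 M)) :
    logv ((e : 𝓞 M) : M) (.inl w) = 0 := by
  show Real.log (av w _) = 0
  rw [(unt_unit ∅ e).2 w, Real.log_one]

/-- the logarithms of a unit -/
lemma unit_comb (e : (𝓞 M)ˣ) : ∃ n : Fin (rank M) → ℤ, ∀ w : Pl M,
    logv ((e : 𝓞 M) : M) w = ∑ i, (n i : ℝ) * logv (gen T (.inl i)) w := by
  obtain ⟨⟨z, n⟩, h, _⟩ := exist_unique_eq_mul_prod M e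
  refine ⟨n, fun w => ?_⟩
  simp only at h
  -- the map of units
  set φ : (𝓞 M)ˣ →* Mˣ := Units.map (algebraMap (𝓞 M) M).toMonoidHom with hφ
  have hval : ∀ x : (𝓞 M)ˣ, lg w (Additive.ofMul (φ x)) = logv ((x : 𝓞 M) : M) w := fun x => rfl
  have hz : logv (((z : (𝓞 M)ˣ) : 𝓞 M) : M) w = 0 := by
    cases w with
    | inl w => exact logv_unit_prime _ w
    | inr v =>
      have h1 := (mem_torsion M).1 z.2 v
      show (v.mult : ℝ) * Real.log (v _) = 0
      rw [h1, Real.log_one, mul_zero]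
  rw [← hval e, h, map_mul, map_prod, ofMul_mul, map_add, hval, hz, zero_add, ofMul_prod, map_sum]
  refine Finset.sum_congr rfl fun i _ => ?_
  rw [map_zpow, ofMul_zpow, map_zsmul, hval, zsmul_eq_mul]
  rfl

/-- every `T`-unit is a rational combination -/
lemma unt_comb {u : M} (hu : Unt T u) : ∃ q : Fin (rank M) ⊕ T → ℚ, ∀ w : Pl M,
    logv u w = ∑ i, (q i : ℝ) * logv (gen T i) w := by
  classical
  have hk : ∀ P : T, ∃ k : ℤ, Real.log (av P.1 (gen T (.inr P))) =
      k * Real.log (Ideal.absNorm P.1.asIdeal) := fun P => av_log P.1 (gen_unt T (.inr P)).1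
  choose k hk using hk
  have hk0 : ∀ P, k P ≠ 0 := by
    intro P h0
    have h1 := hk P
    have h2 : Real.log (av P.1 (gen T (.inr P))) < 0 := gen_inr_eq T P
    rw [h1, h0] at h2
    simp at h2
  have ho : ∀ P : T, ∃ o : ℤ, Real.log (av P.1 u) = o * Real.log (Ideal.absNorm P.1.asIdeal) :=
    fun P => av_log P.1 hu.1
  choose o ho using ho
  set D : ℤ := ∏ P : T, k P with hD
  have hD0 : D ≠ 0 := Finset.prod_ne_zero_iff.2 fun P _ => hk0 P
  set E : T → ℤ := fun P => ∏ Q ∈ Finset.univ.erase P, k Q with hE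
  have hkE : ∀ P, k P * E P = D := fun P => Finset.mul_prod_erase Finset.univ k (Finset.mem_univ P)
  -- the unit
  set x : Additive Mˣ := D • ad hu.1 - ∑ P : T, (o P * E P) • ad (gen_unt T (.inr P)).1 with hx
  set y : M := ((x.toMul : Mˣ) : M) with hy
  have hy0 : y ≠ 0 := Units.ne_zero _
  have hlog : ∀ w, logv y w = D * logv u w - ∑ P : T, ((o P * E P : ℤ) : ℝ) * logv (gen T (.inr P)) w := by
    intro w
    have h1 : logv y w = lg w x := rfl
    rw [h1, hx, map_sub, map_zsmul, map_sum, zsmul_eq_mul, lg_ad]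
    congr 1
    refine Finset.sum_congr rfl fun P _ => ?_
    rw [map_zsmul, zsmul_eq_mul, lg_ad]
  have hav : ∀ w : HeightOneSpectrum (𝓞 M), av w y = 1 := by
    intro w
    have h1 : logv y (.inl w) = 0 := by
      rw [hlog]
      by_cases hw : w ∈ T
      · rw [Finset.sum_eq_single (⟨w, hw⟩ : T)]
        · have h2 : logv u (.inl w) = o ⟨w, hw⟩ * Real.log (Ideal.absNorm w.asIdeal) := ho ⟨w, hw⟩
          have h3 : logv (gen T (.inr ⟨w, hw⟩)) (.inl w) = k ⟨w, hw⟩ * Real.log (Ideal.absNorm w.asIdeal) :=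
            hk ⟨w, hw⟩
          have h4 : ((D : ℤ) : ℝ) = (k ⟨w, hw⟩ : ℝ) * (E ⟨w, hw⟩ : ℝ) := by
            rw [← hkE ⟨w, hw⟩]
            push_cast
            ring
          rw [h2, h3, h4]
          push_cast
          ring
        · intro Q _ hQ
          rw [gen_inr_ne T Q w (fun h => hQ (Subtype.ext h.symm)), mul_zero]
        · exact fun h => absurd (Finset.mem_univ _) h
      · have h2 : logv u (.inl w) = 0 := by
          show Real.log (av w u) = 0
          rw [show av w u = 1 from hu.2 w hw, Real.log_one]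
        rw [h2, mul_zero, zero_sub, neg_eq_zero]
        refine Finset.sum_eq_zero fun P _ => ?_
        rw [gen_inr_ne T P w (fun h => hw (h ▸ P.2)), mul_zero]
    exact Real.eq_one_of_pos_of_log_eq_zero (av_pos w hy0) h1
  obtain ⟨e, he⟩ := exists_unit hy0 hav
  obtain ⟨n, hn⟩ := unit_comb T e
  refine ⟨Sum.elim (fun i => (n i : ℚ) / D) (fun P => ((o P * E P : ℤ) : ℚ) / D), fun w => ?_⟩
  have h1 := hlog w
  rw [← he, hn w] at h1
  have hDr : (D : ℝ) ≠ 0 := by exact_mod_cast hD0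
  rw [Fintype.sum_sum_type]
  simp only [Sum.elim_inl, Sum.elim_inr]
  have h2 : ∑ i, (((n i : ℚ) / D : ℚ) : ℝ) * logv (gen T (.inl i)) w =
      (∑ i, (n i : ℝ) * logv (gen T (.inl i)) w) / D := by
    rw [Finset.sum_div]
    refine Finset.sum_congr rfl fun i _ => ?_
    push_cast
    ring
  have h3 : ∑ P : T, ((((o P * E P : ℤ) : ℚ) / D : ℚ) : ℝ) * logv (gen T (.inr P)) w =
      (∑ P : T, ((o P * E P : ℤ) : ℝ) * logv (gen T (.inr P)) w) / D := by
    rw [Finset.sum_div]
    refine Finset.sum_congr rfl fun P _ => ?_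
    push_cast
    ring
  rw [h2, h3, ← add_div, eq_div_iff hDr, h1]
  ring

/-- **Dirichlet's theorem for `T`-units.** -/
theorem dirichlet_T (M : Type) [Field M] [NumberField M] (T : Finset (HeightOneSpectrum (𝓞 M))) :
    ∃ (n : ℕ) (B : Module.Basis (Fin n) ℂ (XC T)),
      (∀ i, ∃ u : M, (u ≠ 0 ∧ ∀ w, w ∉ T → NumberField.HeightOneSpectrum.adicAbv M w u = 1) ∧
        ∀ w, (B i).fn w = ((-logv u w : ℝ) : ℂ)) ∧
      ∀ u : M, (u ≠ 0 ∧ ∀ w, w ∉ T → NumberField.HeightOneSpectrum.adicAbv M w u = 1) →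
        ∃ q : Fin n → ℚ, ∀ w, ((-logv u w : ℝ) : ℂ) = ∑ i, (q i : ℂ) * (B i).fn w := by
  classical
  set e := Fintype.equivFin (Fin (rank M) ⊕ T) with he
  refine ⟨Fintype.card (Fin (rank M) ⊕ T), (bas T).reindex e, fun i => ?_, fun u hu => ?_⟩
  · refine ⟨gen T (e.symm i), gen_unt T _, fun w => ?_⟩
    rw [Module.Basis.reindex_apply, bas_apply]
    rfl
  · obtain ⟨q, hq⟩ := unt_comb T hu
    refine ⟨fun i => q (e.symm i), fun w => ?_⟩
    have h1 : ∀ i, ((bas T).reindex e i).fn w = ((-logv (gen T (e.symm i)) w : ℝ) : ℂ) := by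
      intro i
      rw [Module.Basis.reindex_apply, bas_apply]
      rfl
    simp only [h1]
    rw [Equiv.sum_comp e.symm (fun j => ((q j : ℚ) : ℂ) * ((-logv (gen T j) w : ℝ) : ℂ)), hq w]
    push_cast
    rw [← Finset.sum_neg_distrib]
    exact Finset.sum_congr rfl fun i _ => by ring

end Pool.Agent.Q259.SI
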