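import Pool.Agent.Q20.SI.Stm
import Pool.Agent.Q259.SI.TunC

/-!
# Job TUN of project SI (helper20): Dirichlet's theorem for `T`-units
-/

set_option autoImplicit false

namespace Pool.Agent.Q259.SI

open Pool.Agent.Q20.SI

theorem tun : S_TUN := fun M _ _ T => dirichlet_T M T

end Pool.Agent.Q259.SI
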