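import Pool.Agent.Q20.RS.Def

/-!
# Dirichlet's theorem for `T`-units: absolute values (project SI of helper20)
-/

set_option autoImplicit false
set_option linter.unusedSectionVars false

namespace Pool.Agent.Q259.SI

open NumberField IsDedekindDomain Pool.Agent.Q20.RS

variable {M : Type} [Field M] [NumberField M]

/-- the absolute value at a prime -/
noncomputable abbrev av (w : HeightOneSpectrum (𝓞 M)) : AbsoluteValue M ℝ :=
  NumberField.HeightOneSpectrum.adicAbv M w

/-- `T`-units -/
def Unt (T : Finset (HeightOneSpectrum (𝓞 M))) (u : M) : Prop :=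
  u ≠ 0 ∧ ∀ w, w ∉ T → NumberField.HeightOneSpectrum.adicAbv M w u = 1

lemma av_pos (w : HeightOneSpectrum (𝓞 M)) {u : M} (hu : u ≠ 0) : 0 < av w u := (av w).pos hu

lemma av_log (w : HeightOneSpectrum (𝓞 M)) {u : M} (hu : u ≠ 0) :
    ∃ n : ℤ, Real.log (av w u) = n * Real.log (Ideal.absNorm w.asIdeal) := by
  have h1 : w.valuation M u ≠ 0 := (w.valuation M).ne_zero_iff.2 hu
  refine ⟨(WithZero.unzero h1).toAdd, ?_⟩
  rw [NumberField.HeightOneSpectrum.adicAbv_def, WithZeroMulInt.toNNReal_neg_apply _ h1]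
  rw [NNReal.coe_zpow, Real.log_zpow]
  simp

lemma log_norm_pos (w : HeightOneSpectrum (𝓞 M)) : 0 < Real.log (Ideal.absNorm w.asIdeal) :=
  Real.log_pos (by exact_mod_cast NumberField.HeightOneSpectrum.one_lt_absNorm w)

/-- logarithms as homomorphisms -/
noncomputable def lg (w : Pl M) : Additive Mˣ →+ ℝ where
  toFun x := logv ((x.toMul : Mˣ) : M) w
  map_zero' := by
    cases w <;> simp [logv]
  map_add' x y := by
    have hx : ((x.toMul : Mˣ) : M) ≠ 0 := Units.ne_zero _
    have hy : ((y.toMul : Mˣ) : M) ≠ 0 := Units.ne_zero _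
    cases w with
    | inl w =>
      simp only [logv, toMul_add, Units.val_mul, map_mul]
      rw [Real.log_mul ((av w).ne_zero hx) ((av w).ne_zero hy)]
    | inr v =>
      simp only [logv, toMul_add, Units.val_mul, map_mul]
      rw [Real.log_mul ((map_ne_zero v).2 hx) ((map_ne_zero v).2 hy)]
      ring

lemma lg_mk0 (w : Pl M) {u : M} (hu : u ≠ 0) : lg w (Additive.ofMul (Units.mk0 u hu)) = logv u w := rfl

/-- powers of primes are principal -/
lemma exists_gen (P : HeightOneSpectrum (𝓞 M)) :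
    ∃ x : M, x ≠ 0 ∧ av P x < 1 ∧ ∀ Q, Q ≠ P → av Q x = 1 := by
  classical
  have hP0 : P.asIdeal ∈ nonZeroDivisors (Ideal (𝓞 M)) := mem_nonZeroDivisors_of_ne_zero P.ne_bot
  set c : ClassGroup (𝓞 M) := ClassGroup.mk0 ⟨P.asIdeal, hP0⟩ with hc
  set h := Nat.card (ClassGroup (𝓞 M)) with hh
  have hpos : h ≠ 0 := Nat.card_pos.ne'
  have h1 : ClassGroup.mk0 (⟨P.asIdeal ^ h, pow_mem hP0 h⟩ : nonZeroDivisors (Ideal (𝓞 M))) = 1 := by
    have h2 : c ^ h = 1 := pow_card_eq_one'
    rw [← h2, hc, ← map_pow]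
    rfl
  rw [ClassGroup.mk0_eq_one_iff (pow_mem hP0 h)] at h1
  obtain ⟨⟨x, hx⟩⟩ := h1
  have hx' : P.asIdeal ^ h = Ideal.span {x} := hx
  have hx0 : x ≠ 0 := by
    rintro rfl
    rw [Ideal.span_singleton_eq_bot.2 rfl] at hx'
    exact pow_ne_zero h P.ne_bot hx'
  refine ⟨(x : M), RingOfIntegers.coe_ne_zero_iff.2 hx0, ?_, ?_⟩
  · rw [← NumberField.FinitePlace.norm_embedding]
    refine (NumberField.FinitePlace.norm_lt_one_iff_mem M P x).2 ?_
    have h3 : x ∈ P.asIdeal ^ h := by rw [hx']; exact Ideal.mem_span_singleton_self x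
    exact Ideal.pow_le_self hpos h3
  · intro Q hQ
    rw [← NumberField.FinitePlace.norm_embedding]
    refine (NumberField.FinitePlace.norm_eq_one_iff_notMem M Q x).2 fun h3 => hQ ?_
    have h4 : P.asIdeal ^ h ≤ Q.asIdeal := by
      rw [hx', Ideal.span_singleton_le_iff_mem]
      exact h3
    have h5 : P.asIdeal ≤ Q.asIdeal := Ideal.IsPrime.le_of_pow_le h4
    have h6 : P.asIdeal = Q.asIdeal := P.isMaximal.eq_of_le Q.isPrime.ne_top h5
    exact (HeightOneSpectrum.ext h6).symm

/-- elements with all absolute values one at the primes are units -/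
lemma exists_unit {y : M} (hy : y ≠ 0) (h : ∀ w : HeightOneSpectrum (𝓞 M), av w y = 1) :
    ∃ e : (𝓞 M)ˣ, ((e : 𝓞 M) : M) = y := by
  have hval : ∀ {z : M}, z ≠ 0 → (∀ w : HeightOneSpectrum (𝓞 M), av w z = 1) →
      ∃ a : 𝓞 M, algebraMap (𝓞 M) M a = z := by
    intro z hz h
    refine HeightOneSpectrum.mem_integers_of_valuation_le_one M z fun w => ?_
    have h1 := h w
    rw [NumberField.HeightOneSpectrum.adicAbv_def] at h1
    by_contra hcon
    push Not at hcon
    have h2 := WithZeroMulInt.toNNReal_strictMono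
      (NumberField.HeightOneSpectrum.one_lt_absNorm_nnreal w) hcon
    rw [map_one] at h2
    have h3 : (1 : ℝ) < (WithZeroMulInt.toNNReal (NumberField.HeightOneSpectrum.absNorm_ne_zero w)
      (w.valuation M z) : ℝ) := by exact_mod_cast h2
    linarith
  obtain ⟨a, ha⟩ := hval hy h
  obtain ⟨b, hb⟩ := hval (inv_ne_zero hy) fun w => by rw [map_inv₀, h w, inv_one]
  have hab : a * b = 1 := by
    apply FaithfulSMul.algebraMap_injective (𝓞 M) M
    rw [map_mul, ha, hb, map_one, mul_inv_cancel₀ hy]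
  exact ⟨⟨a, b, hab, by rw [mul_comm, hab]⟩, ha⟩

/-- the product formula for `T`-units -/
lemma sum_logv {T : Finset (HeightOneSpectrum (𝓞 M))} {u : M} (hu : Unt T u) :
    ∑ w ∈ T, logv u (.inl w) + ∑ v : InfinitePlace M, logv u (.inr v) = 0 := by
  classical
  have h1 := NumberField.prod_abs_eq_one hu.1
  have h2 : ∏ᶠ w : FinitePlace M, w u = ∏ w ∈ T, av w u := by
    rw [← finprod_comp_equiv (NumberField.FinitePlace.equivHeightOneSpectrum (K := M)).symm]
    rw [finprod_eq_prod_of_mulSupport_subset (s := T)]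
    · refine Finset.prod_congr rfl fun w _ => ?_
      rw [NumberField.FinitePlace.equivHeightOneSpectrum_symm_apply, NumberField.FinitePlace.norm_embedding]
    · intro w hw
      by_contra hcon
      apply hw
      show ((NumberField.FinitePlace.equivHeightOneSpectrum (K := M)).symm w) u = 1
      rw [NumberField.FinitePlace.equivHeightOneSpectrum_symm_apply, NumberField.FinitePlace.norm_embedding]
      exact hu.2 w (fun h => hcon h)
  rw [h2] at h1
  have h3 := congrArg Real.log h1
  rw [Real.log_one, Real.log_mul, Real.log_prod, Real.log_prod] at h3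
  · simp only [logv]
    rw [add_comm, ← h3]
    congr 1
    exact Finset.sum_congr rfl fun v _ => by rw [Real.log_pow]
  · intro w _
    exact (av w).ne_zero hu.1
  · intro v _
    exact pow_ne_zero _ ((map_ne_zero v).2 hu.1)
  · exact Finset.prod_ne_zero_iff.2 fun v _ => pow_ne_zero _ ((map_ne_zero v).2 hu.1)
  · exact Finset.prod_ne_zero_iff.2 fun w _ => (av w).ne_zero hu.1

/-- the vector of logarithms of a `T`-unit -/
noncomputable def lvec {T : Finset (HeightOneSpectrum (𝓞 M))} {u : M} (hu : Unt T u) : XC T :=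
  (⟨fun w => ((-logv u w : ℝ) : ℂ), by
    refine ⟨fun w hw => ?_, ?_⟩
    · simp only [logv]
      rw [hu.2 w hw]
      simp
    · have h := sum_logv hu
      have h2 := congrArg (fun t : ℝ => ((-t : ℝ) : ℂ)) h
      simp only [neg_zero, Complex.ofReal_zero] at h2
      rw [← h2]
      push_cast
      simp only [Finset.sum_neg_distrib]
      ring⟩ : XS T)

lemma lvec_fn {T : Finset (HeightOneSpectrum (𝓞 M))} {u : M} (hu : Unt T u) (w : Pl M) :
    (lvec hu).fn w = ((-logv u w : ℝ) : ℂ) := rfl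

end Pool.Agent.Q259.SI
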