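import Pool.Agent.Q259.SI.TunA

/-!
# Dirichlet's theorem for `T`-units: the basis (project SI of helper20)
-/

set_option autoImplicit false
set_option linter.unusedSectionVars false

namespace Pool.Agent.Q259.SI

open NumberField IsDedekindDomain Pool.Agent.Q20.RS NumberField.Units NumberField.Units.dirichletUnitTheorem

variable {M : Type} [Field M] [NumberField M]

open Classical in
variable (M) in
/-- the real basis of Dirichlet's theorem -/
noncomputable def bR : Module.Basis (Fin (rank M)) ℝ (logSpace M) :=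
  (basisUnitLattice M).ofZLatticeBasis ℝ (unitLattice M)

lemma bR_apply (i : Fin (rank M)) (w : {w : InfinitePlace M // w ≠ w₀}) :
    bR M i w = logv (((fundSystem M i : (𝓞 M)ˣ) : 𝓞 M) : M) (.inr w.1) := by
  unfold bR
  rw [Module.Basis.ofZLatticeBasis_apply, ← logEmbedding_fundSystem, logEmbedding_component]
  rfl

/-- independence over `ℂ` -/
lemma bC_indep (c : Fin (rank M) → ℂ)
    (h : ∀ w : {w : InfinitePlace M // w ≠ w₀}, ∑ i, c i * ((bR M i w : ℝ) : ℂ) = 0) : ∀ i, c i = 0 := by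
  classical
  have hli := Fintype.linearIndependent_iff.1 (bR M).linearIndependent
  have hre : ∀ i, (c i).re = 0 := hli (fun i => (c i).re) (by
    funext w
    have h1 := congrArg Complex.re (h w)
    rw [Complex.re_sum] at h1
    simp only [Finset.sum_apply, Pi.smul_apply, smul_eq_mul, Pi.zero_apply]
    rw [Complex.zero_re] at h1
    rw [← h1]
    exact Finset.sum_congr rfl fun i _ => by rw [Complex.re_mul_ofReal])
  have him : ∀ i, (c i).im = 0 := hli (fun i => (c i).im) (by
    funext w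
    have h1 := congrArg Complex.im (h w)
    rw [Complex.im_sum] at h1
    simp only [Finset.sum_apply, Pi.smul_apply, smul_eq_mul, Pi.zero_apply]
    rw [Complex.zero_im] at h1
    rw [← h1]
    exact Finset.sum_congr rfl fun i _ => by rw [Complex.im_mul_ofReal])
  exact fun i => Complex.ext (hre i) (him i)

/-- spanning over `ℂ` -/
lemma bC_span (f : {w : InfinitePlace M // w ≠ w₀} → ℂ) :
    ∃ c : Fin (rank M) → ℂ, ∀ w, f w = ∑ i, c i * ((bR M i w : ℝ) : ℂ) := by
  classical
  have h1 := (bR M).sum_repr (fun w => (f w).re)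
  have h2 := (bR M).sum_repr (fun w => (f w).im)
  refine ⟨fun i => (((bR M).repr (fun w => (f w).re) i : ℝ) : ℂ) +
    (((bR M).repr (fun w => (f w).im) i : ℝ) : ℂ) * Complex.I, fun w => ?_⟩
  have h3 := congrFun h1 w
  have h4 := congrFun h2 w
  simp only [Finset.sum_apply, Pi.smul_apply, smul_eq_mul] at h3 h4
  have h5 : f w = (((f w).re : ℝ) : ℂ) + (((f w).im : ℝ) : ℂ) * Complex.I := (Complex.re_add_im _).symm
  rw [h5, ← h3, ← h4]
  push_cast
  rw [Finset.sum_mul, ← Finset.sum_add_distrib]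
  exact Finset.sum_congr rfl fun i _ => by ring

lemma unt_unit (T : Finset (HeightOneSpectrum (𝓞 M))) (e : (𝓞 M)ˣ) : Unt T ((e : 𝓞 M) : M) ∧
    ∀ w : HeightOneSpectrum (𝓞 M), av w ((e : 𝓞 M) : M) = 1 := by
  have h : ∀ w : HeightOneSpectrum (𝓞 M), av w ((e : 𝓞 M) : M) = 1 := by
    intro w
    rw [← NumberField.FinitePlace.norm_embedding]
    refine (NumberField.FinitePlace.norm_eq_one_iff_notMem M w (e : 𝓞 M)).2 fun h => ?_
    exact w.isPrime.ne_top (Ideal.eq_top_of_isUnit_mem _ h e.isUnit)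
  exact ⟨⟨by
    have : (e : 𝓞 M) ≠ 0 := Units.ne_zero e
    exact RingOfIntegers.coe_ne_zero_iff.2 this, fun w _ => h w⟩, h⟩

variable (T : Finset (HeightOneSpectrum (𝓞 M)))

/-- the elements whose logarithms form a basis -/
noncomputable def gen : Fin (rank M) ⊕ T → M
  | .inl i => ((fundSystem M i : (𝓞 M)ˣ) : 𝓞 M)
  | .inr P => (exists_gen P.1).choose

lemma gen_unt (i : Fin (rank M) ⊕ T) : Unt T (gen T i) := by
  cases i with
  | inl i => exact (unt_unit T (fundSystem M i)).1
  | inr P =>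
    obtain ⟨h1, h2, h3⟩ := (exists_gen P.1).choose_spec
    refine ⟨h1, fun w hw => h3 w ?_⟩
    rintro rfl
    exact hw P.2

lemma gen_inl (i : Fin (rank M)) (w : HeightOneSpectrum (𝓞 M)) : logv (gen T (.inl i)) (.inl w) = 0 := by
  show Real.log (av w _) = 0
  rw [show av w (gen T (.inl i)) = 1 from (unt_unit T (fundSystem M i)).2 w, Real.log_one]

lemma gen_inr_ne (P : T) (w : HeightOneSpectrum (𝓞 M)) (hw : w ≠ P.1) :
    logv (gen T (.inr P)) (.inl w) = 0 := by
  show Real.log (av w _) = 0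
  rw [show av w (gen T (.inr P)) = 1 from (exists_gen P.1).choose_spec.2.2 w hw, Real.log_one]

lemma gen_inr_eq (P : T) : logv (gen T (.inr P)) (.inl P.1) < 0 :=
  Real.log_neg (av_pos _ (gen_unt T (.inr P)).1) (exists_gen P.1).choose_spec.2.1

/-- the vectors -/
noncomputable def vecs (i : Fin (rank M) ⊕ T) : XC T := lvec (gen_unt T i)

/-- the values as a linear map -/
noncomputable def fnL : XC T →ₗ[ℂ] (Pl M → ℂ) := (XS T).subtype

lemma fnL_apply (x : XC T) : fnL T x = x.fn := rfl

lemma fnL_inj {x : XC T} (h : fnL T x = 0) : x = 0 := Subtype.ext h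

lemma fn_sum (g : Fin (rank M) ⊕ T → ℂ) (w : Pl M) :
    (∑ i, g i • vecs T i).fn w = ∑ i, g i * ((-logv (gen T i) w : ℝ) : ℂ) := by
  rw [← fnL_apply, map_sum, Finset.sum_apply]
  exact Finset.sum_congr rfl fun i _ => by
    rw [map_smul, Pi.smul_apply, smul_eq_mul, fnL_apply]
    rfl

lemma fn_sum_prime (g : Fin (rank M) ⊕ T → ℂ) (P : T) :
    (∑ i, g i • vecs T i).fn (.inl P.1) =
      g (.inr P) * ((-logv (gen T (.inr P)) (.inl P.1) : ℝ) : ℂ) := by
  rw [fn_sum, Fintype.sum_sum_type]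
  have h1 : ∑ i : Fin (rank M), g (.inl i) * ((-logv (gen T (.inl i)) (.inl P.1) : ℝ) : ℂ) = 0 :=
    Finset.sum_eq_zero fun i _ => by rw [gen_inl]; simp
  rw [h1, zero_add]
  exact Finset.sum_eq_single P (fun Q _ hQ => by
    rw [gen_inr_ne T Q P.1 (fun h => hQ (Subtype.ext h).symm)]
    simp) (fun h => absurd (Finset.mem_univ _) h)

lemma vecs_indep : LinearIndependent ℂ (vecs T) := by
  classical
  rw [Fintype.linearIndependent_iff]
  intro g hg
  have h0 : ∀ w, (∑ i, g i • vecs T i).fn w = 0 := by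
    intro w
    rw [hg]
    rfl
  have h1 : ∀ P : T, g (.inr P) = 0 := by
    intro P
    have h2 := h0 (.inl P.1)
    rw [fn_sum_prime] at h2
    rcases mul_eq_zero.1 h2 with h3 | h3
    · exact h3
    · exfalso
      have h4 : (-logv (gen T (.inr P)) (.inl P.1) : ℝ) = 0 := by exact_mod_cast h3
      have h5 := gen_inr_eq T P
      linarith
  have h2 : ∀ i : Fin (rank M), -g (.inl i) = 0 := by
    refine bC_indep (fun i => -g (.inl i)) fun w => ?_
    have h3 := h0 (.inr w.1)
    rw [fn_sum, Fintype.sum_sum_type] at h3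
    have h4 : ∑ P : T, g (.inr P) * ((-logv (gen T (.inr P)) (.inr w.1) : ℝ) : ℂ) = 0 :=
      Finset.sum_eq_zero fun P _ => by rw [h1 P, zero_mul]
    rw [h4, add_zero] at h3
    rw [← h3]
    refine Finset.sum_congr rfl fun i _ => ?_
    rw [bR_apply]
    push_cast
    show -g (.inl i) * ((logv (gen T (.inl i)) (.inr w.1) : ℝ) : ℂ) = _
    ring
  rintro (i | P)
  · exact neg_eq_zero.1 (h2 i)
  · exact h1 P

lemma vecs_span : ⊤ ≤ Submodule.span ℂ (Set.range (vecs T)) := by
  classical
  intro x _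
  have hneg : ∀ P : T, ((-logv (gen T (.inr P)) (.inl P.1) : ℝ) : ℂ) ≠ 0 := fun P => by
    have h5 := gen_inr_eq T P
    exact_mod_cast (by linarith : (0 : ℝ) < -logv (gen T (.inr P)) (.inl P.1)).ne'
  set a : T → ℂ := fun P => x.fn (.inl P.1) / ((-logv (gen T (.inr P)) (.inl P.1) : ℝ) : ℂ) with ha
  obtain ⟨c, hc⟩ := bC_span (fun w : {w : InfinitePlace M // w ≠ w₀} =>
    x.fn (.inr w.1) - ∑ P : T, a P * ((-logv (gen T (.inr P)) (.inr w.1) : ℝ) : ℂ))
  set g : Fin (rank M) ⊕ T → ℂ := Sum.elim (fun i => -c i) a with hg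
  have hx : x = ∑ i, g i • vecs T i := by
    rw [← sub_eq_zero]
    apply fnL_inj
    set y : XC T := x - ∑ i, g i • vecs T i with hy
    have hyw : ∀ w, y.fn w = x.fn w - (∑ i, g i • vecs T i).fn w := fun w => rfl
    have hp : ∀ w : HeightOneSpectrum (𝓞 M), y.fn (.inl w) = 0 := by
      intro w
      by_cases hw : w ∈ T
      · rw [hyw, fn_sum_prime T g ⟨w, hw⟩]
        show x.fn (.inl w) - a ⟨w, hw⟩ * _ = 0
        rw [ha]
        simp only
        rw [div_mul_cancel₀ _ (hneg ⟨w, hw⟩), sub_self]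
      · exact y.2.1 w hw
    have hi : ∀ w : {w : InfinitePlace M // w ≠ w₀}, y.fn (.inr w.1) = 0 := by
      intro w
      rw [hyw, fn_sum, Fintype.sum_sum_type]
      have h1 := hc w
      have h2 : ∑ i : Fin (rank M), g (.inl i) * ((-logv (gen T (.inl i)) (.inr w.1) : ℝ) : ℂ) =
          ∑ i, c i * ((bR M i w : ℝ) : ℂ) := by
        refine Finset.sum_congr rfl fun i _ => ?_
        rw [bR_apply]
        show -c i * ((-logv (((fundSystem M i : (𝓞 M)ˣ) : 𝓞 M) : M) (.inr w.1) : ℝ) : ℂ) = _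
        push_cast
        ring
      rw [h2, ← h1]
      show x.fn (.inr w.1) - ((x.fn (.inr w.1) - ∑ P : T, a P * _) + ∑ P : T, a P * _) = 0
      ring
    funext w
    rcases w with w | v
    · exact hp w
    · show y.fn (.inr v) = 0
      by_cases hv : v = w₀
      · have h1 := y.2.2
        have h2 : ∑ w ∈ T, y.1 (.inl w) = 0 := Finset.sum_eq_zero fun w _ => hp w
        rw [h2, zero_add] at h1
        rw [Finset.sum_eq_single v (fun w _ hw => hi ⟨w, fun h => hw (h.trans hv.symm)⟩)
          (fun h => absurd (Finset.mem_univ _) h)] at h1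
        exact h1
      · exact hi ⟨v, hv⟩
  rw [hx]
  exact Submodule.sum_mem _ fun i _ => Submodule.smul_mem _ _ (Submodule.subset_span ⟨i, rfl⟩)

/-- the basis -/
noncomputable def bas : Module.Basis (Fin (rank M) ⊕ T) ℂ (XC T) :=
  Module.Basis.mk (vecs_indep T) (vecs_span T)

lemma bas_apply (i : Fin (rank M) ⊕ T) : bas T i = vecs T i := Module.Basis.mk_apply _ _ i

end Pool.Agent.Q259.SI
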